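import Pool.Agent.V11243.Rigid

/-!
# Tensor products of pairwise incomparable weak P-points generate a free semigroup

For a set `A` of pairwise Rudin-Keisler incomparable weak P-points, a product of a word `w'` over `A`
is Rudin-Keisler below a product of a word `w` over `A` if and only if `w'` is a subsequence of `w`.
-/

set_option autoImplicit false

namespace Pool.Agent.Results.MP_55c7a7_lc.FreeSemigroup

/-- The Rudin-Keisler preorder. -/
def RKLe (u v : Ultrafilter ℕ) : Prop := ∃ f : ℕ → ℕ, u = v.map f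

/-- Isomorphism of ultrafilters. -/
def Iso (u v : Ultrafilter ℕ) : Prop := RKLe u v ∧ RKLe v u

/-- `u` is nonprincipal. -/
def Nonprincipal (u : Ultrafilter ℕ) : Prop := ∀ n : ℕ, {n} ∉ u

/-- A weak P-point: a nonprincipal ultrafilter which is not in the closure (in `βω`) of any countable
set of nonprincipal ultrafilters different from it. -/
def WeakPPoint (u : Ultrafilter ℕ) : Prop :=
  Nonprincipal u ∧ ∀ D : Set (Ultrafilter ℕ), D.Countable → (∀ v ∈ D, Nonprincipal v ∧ v ≠ u) →
    u ∉ closure D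

/-- The tensor product, transferred to `ℕ` by the pairing bijection: `X` belongs to `tensor u v` if
and only if `{i | {j | pair i j ∈ X} ∈ v} ∈ u`. -/
def tensor (u v : Ultrafilter ℕ) : Ultrafilter ℕ :=
  u.bind fun i => v.map fun j => Nat.pair i j

theorem mem_tensor (u v : Ultrafilter ℕ) (X : Set ℕ) :
    X ∈ tensor u v ↔ {i | {j | Nat.pair i j ∈ X} ∈ v} ∈ u := Iff.rfl

/-- `IsProduct w p`: the ultrafilter `p` is a tensor product of the elements of the nonempty word `w`,
in this order and with some bracketing. -/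
inductive IsProduct : List (Ultrafilter ℕ) → Ultrafilter ℕ → Prop
  | single (a : Ultrafilter ℕ) : IsProduct [a] a
  | mul (w₁ w₂ : List (Ultrafilter ℕ)) (p₁ p₂ : Ultrafilter ℕ) :
      IsProduct w₁ p₁ → IsProduct w₂ p₂ → IsProduct (w₁ ++ w₂) (tensor p₁ p₂)

/-- `A` generates a free semigroup up to isomorphism: isomorphic products of words over `A` are
products of the same word. -/
def GeneratesFree (A : Set (Ultrafilter ℕ)) : Prop :=
  ∀ w w' : List (Ultrafilter ℕ), (∀ a ∈ w, a ∈ A) → (∀ a ∈ w', a ∈ A) →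
    ∀ p p' : Ultrafilter ℕ, IsProduct w p → IsProduct w' p' → Iso p p' → w = w'

/-- The product of a word as an ultrafilter on lists. -/
noncomputable def L : List (Ultrafilter ℕ) → Ultrafilter (List ℕ)
  | [] => pure []
  | a :: w => a.bind fun x => (L w).map fun l => x :: l

theorem mem_L_cons (a : Ultrafilter ℕ) (w : List (Ultrafilter ℕ)) (X : Set (List ℕ)) :
    X ∈ L (a :: w) ↔ {x | {l | x :: l ∈ X} ∈ L w} ∈ a := Iff.rfl

theorem ev_L_cons (a : Ultrafilter ℕ) (w : List (Ultrafilter ℕ)) (p : List ℕ → Prop) :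
    (∀ᶠ l in L (a :: w), p l) ↔ ∀ᶠ x in a, ∀ᶠ l in L w, p (x :: l) := Iff.rfl

theorem mem_L_nil (X : Set (List ℕ)) : X ∈ L [] ↔ [] ∈ X := Iff.rfl

theorem ultra_ext {α : Type*} {u v : Ultrafilter α} (h : ∀ s, s ∈ u → s ∈ v) : u = v := by
  refine Ultrafilter.coe_le_coe.1 ?_ |>.symm
  intro s hs
  exact h s hs

theorem mem_L_append (w₁ w₂ : List (Ultrafilter ℕ)) (X : Set (List ℕ)) :
    X ∈ L (w₁ ++ w₂) ↔ {l₁ | {l₂ | l₁ ++ l₂ ∈ X} ∈ L w₂} ∈ L w₁ := by
  induction w₁ generalizing X with
  | nil => rfl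
  | cons a w₁ ih =>
    rw [List.cons_append, mem_L_cons, mem_L_cons]
    have : ∀ x : ℕ, {l | x :: l ∈ X} ∈ L (w₁ ++ w₂) ↔
        {l₁ | {l₂ | x :: (l₁ ++ l₂) ∈ X} ∈ L w₂} ∈ L w₁ := fun x => ih _
    simp only [this]
    rfl

theorem ev_length (w : List (Ultrafilter ℕ)) : ∀ᶠ l : List ℕ in L w, l.length = w.length := by
  induction w with
  | nil => exact (rfl : ([] : List ℕ).length = 0)
  | cons a w ih =>
    rw [ev_L_cons]
    refine Filter.Eventually.of_forall fun x => ?_
    filter_upwards [ih] with l hl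
    simp [hl]

theorem ev_gt (w : List (Ultrafilter ℕ)) (hw : ∀ a ∈ w, Nonprincipal a) (n : ℕ) :
    ∀ᶠ l : List ℕ in L w, ∀ y ∈ l, n < y := by
  induction w with
  | nil => exact (by simp : ∀ y ∈ ([] : List ℕ), n < y)
  | cons a w ih =>
    rw [ev_L_cons]
    have h1 : ∀ᶠ x in a, n < x := by
      by_contra hc
      rw [← Ultrafilter.eventually_not] at hc
      have h2 : {x | x ≤ n} ∈ a := by
        filter_upwards [hc] with x hx
        exact not_lt.1 hx
      obtain ⟨k, -, hk⟩ := Ultrafilter.eq_pure_of_finite_mem (Set.finite_le_nat n) h2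
      apply hw a (by simp) k
      rw [hk]
      exact Ultrafilter.mem_pure.2 rfl
    filter_upwards [h1] with x hx
    filter_upwards [ih (fun b hb => hw b (List.mem_cons_of_mem _ hb))] with l hl
    intro y hy
    rcases List.mem_cons.1 hy with rfl | hy
    · exact hx
    · exact hl y hy

theorem ev_sorted (w : List (Ultrafilter ℕ)) (hw : ∀ a ∈ w, Nonprincipal a) :
    ∀ᶠ l : List ℕ in L w, l.Pairwise (· < ·) := by
  induction w with
  | nil => exact (by simp : ([] : List ℕ).Pairwise (· < ·))
  | cons a w ih =>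
    rw [ev_L_cons]
    refine Filter.Eventually.of_forall fun x => ?_
    filter_upwards [ih (fun b hb => hw b (List.mem_cons_of_mem _ hb)),
      ev_gt w (fun b hb => hw b (List.mem_cons_of_mem _ hb)) x] with l hl hl2
    exact List.pairwise_cons.2 ⟨hl2, hl⟩

/-- The `k`-th coordinate of the product of `w` is the `k`-th element of `w`. -/
theorem map_getD (w : List (Ultrafilter ℕ)) (k : ℕ) (hk : k < w.length) :
    (L w).map (fun l => l.getD k 0) = w[k] := by
  induction w generalizing k with
  | nil => exact absurd hk (by simp)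
  | cons a w ih =>
    refine ultra_ext fun s hs => ?_
    rw [Ultrafilter.mem_map, mem_L_cons] at hs
    cases k with
    | zero =>
      show s ∈ a
      filter_upwards [hs] with x hx
      obtain ⟨l, hl⟩ := (L w).nonempty_of_mem hx
      exact hl
    | succ k =>
      obtain ⟨x, hx⟩ := a.nonempty_of_mem hs
      have h2 : s ∈ (L w).map (fun l => l.getD k 0) := hx
      rw [ih k (by simpa using hk)] at h2
      exact h2

/-- **Factorization.** A map of a product of elements of `A` onto an element of `A` is a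
coordinate function almost everywhere. -/
theorem coordinate {A : Set (Ultrafilter ℕ)} (hA : ∀ u ∈ A, WeakPPoint u)
    (hinc : ∀ u ∈ A, ∀ v ∈ A, u ≠ v → ¬ RKLe u v) (w : List (Ultrafilter ℕ))
    (hw : ∀ a ∈ w, a ∈ A) (u : Ultrafilter ℕ) (hu : u ∈ A) (h : List ℕ → ℕ)
    (hmap : (L w).map h = u) :
    ∃ k, ∃ hk : k < w.length, w[k] = u ∧ ∀ᶠ l in L w, h l = l.getD k 0 := by
  induction w generalizing h with
  | nil =>
    exfalso
    apply (hA u hu).1 (h [])
    rw [← hmap, Ultrafilter.mem_map, mem_L_nil]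
    rfl
  | cons a w ih =>
    have haA : a ∈ A := hw a (by simp)
    have hwA : ∀ b ∈ w, b ∈ A := fun b hb => hw b (List.mem_cons_of_mem _ hb)
    let U : ℕ → Ultrafilter ℕ := fun x => (L w).map fun l => h (x :: l)
    have hmem : ∀ s, s ∈ u ↔ {x | s ∈ U x} ∈ a := by
      intro s
      rw [← hmap]
      rfl
    by_cases h1 : {x | U x = u} ∈ a
    · -- the values do not depend on the first coordinate
      have h2 : ∀ x, U x = u → ∃ k, ∃ hk : k < w.length, w[k] = u ∧
          ∀ᶠ l in L w, h (x :: l) = l.getD k 0 := fun x hx => ih hwA (fun l => h (x :: l)) hx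
      have h3 : ⋃ k ∈ Finset.range w.length, {x | ∃ hk : k < w.length, w[k] = u ∧
          ∀ᶠ l in L w, h (x :: l) = l.getD k 0} ∈ a := by
        refine Filter.mem_of_superset h1 ?_
        intro x hx
        obtain ⟨k, hk, h4⟩ := h2 x hx
        simp only [Set.mem_iUnion]
        exact ⟨k, Finset.mem_range.2 hk, hk, h4⟩
      obtain ⟨k, hk, h4⟩ := (Ultrafilter.finite_biUnion_mem_iff
        (Finset.finite_toSet (Finset.range w.length))).1 h3
      have hk' : k < w.length := by simpa using hk
      refine ⟨k + 1, by simpa using hk', ?_, ?_⟩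
      · obtain ⟨x, _, h5⟩ := a.nonempty_of_mem h4
        simpa using h5.1
      · rw [ev_L_cons]
        filter_upwards [h4] with x hx
        have h5 : ∀ᶠ l in L w, h (x :: l) = l.getD k 0 := by
          obtain ⟨_, _, h6⟩ := hx
          exact h6
        filter_upwards [h5] with l hl
        simpa using hl
    · by_cases h2 : {x | ∃ n, U x = pure n} ∈ a
      · -- the values depend only on the first coordinate
        choose! g hg using (fun x (hx : ∃ n, U x = pure n) => hx)
        have h3 : a.map g = u := by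
          refine ultra_ext fun s hs => ?_
          rw [hmem]
          rw [Ultrafilter.mem_map] at hs
          filter_upwards [hs, h2] with x hx1 hx2
          rw [hg x hx2]
          exact Ultrafilter.mem_pure.2 hx1
        have hau : u = a := by
          by_contra hne
          exact hinc u hu a haA hne ⟨g, h3.symm⟩
        subst hau
        refine ⟨0, by simp, rfl, ?_⟩
        rw [ev_L_cons]
        filter_upwards [Pool.Agent.V11243.Rigid.rigid u g h3, h2] with x hx1 hx2
        have h4 : {n | n = x} ∈ U x := by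
          rw [hg x hx2, hx1]
          exact Ultrafilter.mem_pure.2 rfl
        exact h4
      · -- impossible for a weak P-point
        exfalso
        have h3 : {x | U x ≠ u ∧ Nonprincipal (U x)} ∈ a := by
          rw [← Ultrafilter.compl_mem_iff_notMem] at h1 h2
          filter_upwards [h1, h2] with x hx1 hx2
          refine ⟨hx1, fun n hn => hx2 ⟨n, ?_⟩⟩
          symm
          refine ultra_ext fun s hs => ?_
          refine Filter.mem_of_superset hn ?_
          rintro y rfl
          exact hs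
        refine (hA u hu).2 (U '' {x | U x ≠ u ∧ Nonprincipal (U x)})
          ((Set.to_countable _).image U) ?_ ?_
        · rintro _ ⟨x, hx, rfl⟩
          exact ⟨hx.2, hx.1⟩
        · rw [(ultrafilterBasis_is_basis (α := ℕ)).mem_closure_iff]
          rintro _ ⟨s, rfl⟩ hs
          obtain ⟨x, hx1, hx2⟩ := a.nonempty_of_mem (Filter.inter_mem ((hmem s).1 hs) h3)
          exact ⟨U x, hx1, x, hx2, rfl⟩

/-- If the product of `w'` is an image of the product of `w` then `w'` is a subsequence of `w`. -/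
theorem sublist_of_map {A : Set (Ultrafilter ℕ)} (hA : ∀ u ∈ A, WeakPPoint u)
    (hinc : ∀ u ∈ A, ∀ v ∈ A, u ≠ v → ¬ RKLe u v) (w w' : List (Ultrafilter ℕ))
    (hw : ∀ a ∈ w, a ∈ A) (hw' : ∀ a ∈ w', a ∈ A) (H : List ℕ → List ℕ)
    (hH : (L w).map H = L w') : w'.Sublist w := by
  have h1 : ∀ j : Fin w'.length, ∃ k : Fin w.length, w[k] = w'[j] ∧
      ∀ᶠ l in L w, (H l).getD j 0 = l.getD k 0 := by
    intro j
    have hj : w'[j] ∈ A := hw' _ (List.getElem_mem _)
    obtain ⟨k, hk, h2, h3⟩ := coordinate hA hinc w hw w'[j] hj (fun l => (H l).getD j 0) (by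
      have h0 : w'[j] = (L w').map (fun l => l.getD j 0) := (map_getD w' j j.2).symm
      rw [h0, ← hH, Ultrafilter.map_map]
      rfl)
    exact ⟨⟨k, hk⟩, h2, h3⟩
  choose k hk1 hk2 using h1
  have hlen : ∀ᶠ l : List ℕ in L w, (H l).length = w'.length := by
    have := ev_length w'
    rw [← hH] at this
    exact this
  have hsort : ∀ᶠ l : List ℕ in L w, (H l).Pairwise (· < ·) := by
    have := ev_sorted w' (fun a ha => (hA a (hw' a ha)).1)
    rw [← hH] at this
    exact this
  have hmono : StrictMono k := by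
    intro i j hij
    by_contra hc
    have hle : k j ≤ k i := not_lt.1 hc
    have hev : ∀ᶠ l : List ℕ in L w, False := by
      filter_upwards [hk2 i, hk2 j, hlen, hsort, ev_length w,
        ev_sorted w (fun a ha => (hA a (hw a ha)).1)] with l h1 h2 h3 h4 h5 h6
      have hi : (i : ℕ) < (H l).length := by rw [h3]; exact i.2
      have hj : (j : ℕ) < (H l).length := by rw [h3]; exact j.2
      have h7 : (H l)[(i : ℕ)] < (H l)[(j : ℕ)] := List.pairwise_iff_getElem.1 h4 i j hi hj hij
      rw [List.getD_eq_getElem _ _ hi] at h1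
      rw [List.getD_eq_getElem _ _ hj] at h2
      have hki : (k i : ℕ) < l.length := by rw [h5]; exact (k i).2
      have hkj : (k j : ℕ) < l.length := by rw [h5]; exact (k j).2
      rw [List.getD_eq_getElem _ _ hki] at h1
      rw [List.getD_eq_getElem _ _ hkj] at h2
      rw [h1, h2] at h7
      rcases hle.lt_or_eq with h8 | h8
      · have := List.pairwise_iff_getElem.1 h6 (k j) (k i) hkj hki h8
        exact absurd h7 (not_lt.2 this.le)
      · have h9 : (k j : ℕ) = (k i : ℕ) := congrArg _ h8
        simp only [h9] at h7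
        exact absurd h7 (lt_irrefl _)
    obtain ⟨l, hl⟩ := hev.exists
    exact hl
  rw [List.sublist_iff_exists_fin_orderEmbedding_get_eq]
  refine ⟨OrderEmbedding.ofStrictMono k hmono, fun j => ?_⟩
  exact (hk1 j).symm

/-- The product of a subsequence is an image. -/
theorem map_of_sublist {w w' : List (Ultrafilter ℕ)} (h : w'.Sublist w) :
    ∃ H : List ℕ → List ℕ, (L w).map H = L w' := by
  induction h with
  | slnil => exact ⟨id, Ultrafilter.map_id _⟩
  | @cons w' w a h ih =>
    obtain ⟨H, hH⟩ := ih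
    refine ⟨fun l => H l.tail, ?_⟩
    refine ultra_ext fun s hs => ?_
    rw [Ultrafilter.mem_map, mem_L_cons] at hs
    obtain ⟨x, hx⟩ := a.nonempty_of_mem hs
    rw [← hH]
    exact hx
  | @cons_cons w' w a h ih =>
    obtain ⟨H, hH⟩ := ih
    refine ⟨fun l => l.headD 0 :: H l.tail, ?_⟩
    refine ultra_ext fun s hs => ?_
    rw [Ultrafilter.mem_map, mem_L_cons] at hs
    rw [mem_L_cons]
    filter_upwards [hs] with x hx
    show {l | x :: l ∈ s} ∈ L w'
    rw [← hH]
    exact hx

/-- Every product of the word `w` is isomorphic to the ultrafilter `L w` on lists. -/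
theorem exists_code {w : List (Ultrafilter ℕ)} {p : Ultrafilter ℕ} (h : IsProduct w p) :
    ∃ (e : List ℕ → ℕ) (d : ℕ → List ℕ), (L w).map e = p ∧ p.map d = L w := by
  induction h with
  | single a =>
    refine ⟨fun l => l.getD 0 0, fun n => [n], ?_, ?_⟩
    · exact map_getD [a] 0 (by simp)
    · refine ultra_ext fun s hs => ?_
      exact hs
  | mul w₁ w₂ p₁ p₂ h₁ h₂ ih₁ ih₂ =>
    obtain ⟨e₁, d₁, he₁, hd₁⟩ := ih₁
    obtain ⟨e₂, d₂, he₂, hd₂⟩ := ih₂
    refine ⟨fun l => Nat.pair (e₁ (l.take w₁.length)) (e₂ (l.drop w₁.length)),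
      fun n => d₁ n.unpair.1 ++ d₂ n.unpair.2, ?_, ?_⟩
    · refine ultra_ext fun s hs => ?_
      rw [Ultrafilter.mem_map, mem_L_append] at hs
      rw [mem_tensor, ← he₁, ← he₂, Ultrafilter.mem_map]
      filter_upwards [hs, ev_length w₁] with l₁ h1 h2
      show {j | Nat.pair (e₁ l₁) j ∈ s} ∈ (L w₂).map e₂
      rw [Ultrafilter.mem_map]
      filter_upwards [h1] with l₂ h3
      have h4 : Nat.pair (e₁ ((l₁ ++ l₂).take w₁.length)) (e₂ ((l₁ ++ l₂).drop w₁.length)) ∈ s := h3
      rw [← h2, List.take_left, List.drop_left] at h4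
      exact h4
    · refine ultra_ext fun s hs => ?_
      rw [Ultrafilter.mem_map, mem_tensor] at hs
      rw [mem_L_append, ← hd₁, ← hd₂, Ultrafilter.mem_map]
      filter_upwards [hs] with i hi
      show {l₂ | d₁ i ++ l₂ ∈ s} ∈ p₂.map d₂
      rw [Ultrafilter.mem_map]
      filter_upwards [hi] with j hj
      have h4 : d₁ (Nat.pair i j).unpair.1 ++ d₂ (Nat.pair i j).unpair.2 ∈ s := hj
      rw [Nat.unpair_pair] at h4
      exact h4

theorem rkLe_iff {A : Set (Ultrafilter ℕ)} (hA : ∀ u ∈ A, WeakPPoint u)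
    (hinc : ∀ u ∈ A, ∀ v ∈ A, u ≠ v → ¬ RKLe u v) (w w' : List (Ultrafilter ℕ))
    (hw : ∀ a ∈ w, a ∈ A) (hw' : ∀ a ∈ w', a ∈ A) (p p' : Ultrafilter ℕ) (hp : IsProduct w p)
    (hp' : IsProduct w' p') : RKLe p' p ↔ w'.Sublist w := by
  obtain ⟨e, d, he, hd⟩ := exists_code hp
  obtain ⟨e', d', he', hd'⟩ := exists_code hp'
  constructor
  · rintro ⟨f, hf⟩
    refine sublist_of_map hA hinc w w' hw hw' (fun l => d' (f (e l))) ?_
    have : (fun l => d' (f (e l))) = d' ∘ f ∘ e := rfl
    rw [this, ← Ultrafilter.map_map, ← Ultrafilter.map_map, he, ← hf, hd']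
  · intro h
    obtain ⟨H, hH⟩ := map_of_sublist h
    refine ⟨fun n => e' (H (d n)), ?_⟩
    have : (fun n => e' (H (d n))) = e' ∘ H ∘ d := rfl
    rw [this, ← Ultrafilter.map_map, ← Ultrafilter.map_map, hd, hH, he']

/-- **Theorem.** Let `A` be a set of weak P-points which are pairwise incomparable in the
Rudin-Keisler preorder. Then `A` generates a free semigroup up to isomorphism; moreover a product of
a word `w'` over `A` is Rudin-Keisler below a product of a word `w` over `A` if and only if `w'` is a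
(not necessarily contiguous) subsequence of `w`. -/
theorem result (A : Set (Ultrafilter ℕ)) (hA : ∀ u ∈ A, WeakPPoint u)
    (hinc : ∀ u ∈ A, ∀ v ∈ A, u ≠ v → ¬ RKLe u v) :
    GeneratesFree A ∧
    ∀ w w' : List (Ultrafilter ℕ), (∀ a ∈ w, a ∈ A) → (∀ a ∈ w', a ∈ A) →
      ∀ p p' : Ultrafilter ℕ, IsProduct w p → IsProduct w' p' →
        (RKLe p' p ↔ w'.Sublist w) := by
  refine ⟨fun w w' hw hw' p p' hp hp' hiso => ?_, rkLe_iff hA hinc⟩
  exact List.Sublist.antisymm ((rkLe_iff hA hinc w' w hw' hw p' p hp' hp).1 hiso.1)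
    ((rkLe_iff hA hinc w w' hw hw' p p' hp hp').1 hiso.2)

end Pool.Agent.Results.MP_55c7a7_lc.FreeSemigroup
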